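import Pool.Agent.H44.SO.Basic

/-!
# The kernel of maps with a given action on the types (several orbits of vertices)
-/

set_option autoImplicit false

namespace Pool.Agent.H59.SO.KER

open Pool.Agent.H44.SO Pool.Agent.H57.SO Pool.Agent.H68.BP Pool.Agent.H58.SF
open Pool.Agent.H53.GC Pool.Agent.H53.NR Function
open Pool.Agent.H57.EQ (Cx Tour)

/-- **Row KER.** -/
theorem pf_KER (hK : Pool.Agent.H44.SO.T_CAN) (hB : T_BHH) : T_KER := by
  intro σ V S X _ P 𝔸 M c hS I _ τ hτ
  have hc := hS.col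
  obtain ⟨H, hH1, hH2, hH3⟩ := hK σ V S X P 𝔸 M c hS I
    (fun v w y => v = w → y = Sum.inl (τ (fun i => vt P c (v i)))) (by
      intro v w v' w' y hsame hR hvw'
      have hvw : v = w := by
        funext i
        have h1 : c (v i) (w i) = c (v' i) (w' i) := (hsame (Sum.inl i) (Sum.inr i)).2
        have h2 : v' i = w' i := congrFun hvw' i
        exact (Pool.Agent.H44.SO.Col.eq_iff' hc h1).2 h2
      have hty : ∀ i, vt P c (v i) = vt P c (v' i) := by
        intro i
        have h1 : c (v i) (v i) = c (v' i) (v' i) := (hsame (Sum.inl i) (Sum.inl i)).2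
        rw [vt, vt, h1]
      rw [hR hvw]
      simp only [hty])
    (by
      intro W _ G hG
      obtain ⟨ψ, hψ1, hψ2⟩ := hτ W G
      refine ⟨ψ, hψ1, fun u w huw => ?_⟩
      have h1 : u = w := hG u w (fun i => congrFun huw i)
      subst h1
      rw [Pool.Agent.H44.SO.Col.vt hc, hψ2])
  have hcan : Can 𝔸 c I (fun v w => (H v w).1) := by
    refine ⟨fun v w v' w' hs => congrArg Prod.fst (hH1 v w v' w' hs), fun W _ G => ?_⟩
    obtain ⟨ψ, hψ1, hψ2⟩ := hH3 W G
    refine ⟨ψ, hψ1, fun u w => ?_⟩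
    show c (ψ u) (ψ w) = (H (fun i => G i u) (fun i => G i w)).1
    rw [hψ2 u w]
  have hrk : Injective (fun i : I => ((Finite.equivFin I i : Fin _) : ℕ)) := by
    intro a b hab
    exact (Finite.equivFin I).injective (Fin.ext hab)
  obtain ⟨τ', κ, hb, ht, _⟩ := hB σ V S X P 𝔸 M c hS I _ hrk _ hcan
  have hττ : τ' = τ := by
    funext t
    obtain ⟨z, _, hz1, hz2⟩ := ht t
    have h1 := hH2 z z rfl
    have h2 : (fun i => vt P c (z i)) = t := funext hz1
    rw [h2] at h1
    have hz2' : (H z z).1 = Sum.inl (τ' t) := hz2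
    rw [hz2'] at h1
    exact Sum.inl.inj h1
  rw [hττ] at hb
  exact ⟨κ, hb⟩

end Pool.Agent.H59.SO.KER
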