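import Pool.Agent.H44.SO.Basic

/-!
# Blocks with different determining entries have different values (several orbits of vertices)
-/

set_option autoImplicit false

namespace Pool.Agent.H59.SO.SEP

open Pool.Agent.H44.SO Pool.Agent.H57.SO Pool.Agent.H68.BP Pool.Agent.H58.SF
open Pool.Agent.H53.GC Pool.Agent.H53.NR Function
open Pool.Agent.H57.EQ (Cx Tour)

/-- equality of values is transitive -/
theorem inl_trans {σ : Sig} {V S X I : Type} [LinearOrder V] {P : Pal S X} {𝔸 : Str σ V}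
    {c : V → V → S ⊕ X} {h : (I → V) → (I → V) → S ⊕ X} (hc : Col P c) (hh : Can 𝔸 c I h)
    {a b d : I → V} (h1 : ∃ s, h a b = Sum.inl s) (h2 : ∃ s, h a d = Sum.inl s) :
    ∃ s, h b d = Sum.inl s := by
  obtain ⟨ψ, _, hψ⟩ := hh.comb (Fin 3) (fun i w => ![a, b, d] w i)
  have e01 : c (ψ 0) (ψ 1) = h a b := hψ 0 1
  have e02 : c (ψ 0) (ψ 2) = h a d := hψ 0 2
  have e12 : c (ψ 1) (ψ 2) = h b d := hψ 1 2
  have p1 : ψ 0 = ψ 1 := (hc.eq_iff _ _).1 (by rw [e01]; exact h1)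
  have p2 : ψ 0 = ψ 2 := (hc.eq_iff _ _).1 (by rw [e02]; exact h2)
  have p3 : ψ 1 = ψ 2 := p1.symm.trans p2
  rw [← e12]
  exact (hc.eq_iff _ _).2 p3

open Classical in
/-- **Row SEP.** -/
theorem pf_SEP (hC : T_CFG) : T_SEP := by
  intro σ V S X _ P 𝔸 M c hS h hcore s κ κ' J J' hJ hJ' hJκ hJκ' v v' hv hv' hne s' hvv
  have hc := hS.col
  let D : V × ℕ → V × ℕ → X := fun p q => if p.2 = 0 ∧ q.2 = 0 then cD P c p.1 q.1 else P.fr s s
  have hD2 : ∀ p q : V × ℕ, q.2 ≠ 0 → D p q = P.fr s s := fun p q hq => if_neg (fun h => hq h.2)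
  let e : (Fin 6 ⊕ Fin 6) × Fin 3 → V × ℕ := fun w => (Sum.elim v v' w.1, w.2.val)
  let Q : Set (V × ℕ) := Set.range e
  have hQ : Q.Finite := Set.finite_range e
  have hQf : Finite Q := hQ
  have hQt : ∀ p ∈ Q, c p.1 p.1 = Sum.inl s := by
    rintro _ ⟨⟨l | l, a⟩, rfl⟩
    · exact (hv.typ l).1
    · exact (hv'.typ l).1
  obtain ⟨f, hf1, hf2, hf3⟩ := hC σ V S X P 𝔸 M c hS Q (Lex (V × ℕ)) (fun q => toLex q.1)
    (fun _ => s) (fun x y => D x.1 y.1) (fun a b hab => Subtype.ext (toLex.injective hab))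
    (by
      intro x y hxy
      show D y.1 x.1 = P.rv (D x.1 y.1)
      by_cases hx : x.1.2 = 0 ∧ y.1.2 = 0
      · have h1 : D y.1 x.1 = cD P c y.1.1 x.1.1 := if_pos ⟨hx.2, hx.1⟩
        have h2 : D x.1 y.1 = cD P c x.1.1 y.1.1 := if_pos hx
        have hxy' : x.1.1 ≠ y.1.1 := by
          intro he
          apply hxy
          exact Subtype.ext (Prod.ext he (hx.1.trans hx.2.symm))
        rw [h1, h2]
        exact cD_of_inr (hc.swap _ _ _ (cD_of_ne hc hxy'))
      · have h1 : D y.1 x.1 = P.fr s s := if_neg (fun h => hx ⟨h.2, h.1⟩)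
        have h2 : D x.1 y.1 = P.fr s s := if_neg hx
        rw [h1, h2, P.rv_fr])
    (by
      intro K hK
      by_cases h0 : ∀ x ∈ K, x.1.2 = 0
      · refine ⟨fun x => x.1.1, fun x _ => hQt _ x.2, ?_⟩
        intro x hx y hy hxy
        have hxy' : x.1.1 ≠ y.1.1 := by
          intro he
          apply hxy
          exact Subtype.ext (Prod.ext he ((h0 x hx).trans (h0 y hy).symm))
        show c x.1.1 y.1.1 = Sum.inr (D x.1 y.1)
        have h1 : D x.1 y.1 = cD P c x.1.1 y.1.1 := if_pos ⟨h0 x hx, h0 y hy⟩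
        rw [h1]
        exact cD_of_ne hc hxy'
      · push Not at h0
        obtain ⟨p, hp, hp0⟩ := h0
        have hall : ∀ x ∈ K, x = p := by
          intro x hx
          by_contra hxp
          exact hK x hx p hp hxp (hD2 x.1 p.1 hp0)
        refine ⟨fun x => x.1.1, fun x _ => hQt _ x.2, ?_⟩
        intro x hx y hy hxy
        exact absurd ((hall x hx).trans (hall y hy).symm) hxy)
  -- the map on names
  obtain ⟨a₀⟩ := hS.ne
  let F : V × ℕ → V := fun x => if h : x ∈ Q then f ⟨x, h⟩ else a₀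
  have hF : ∀ x (hx : x ∈ Q), F x = f ⟨x, hx⟩ := fun x hx => dif_pos hx
  have F1 : ∀ x ∈ Q, ∀ y ∈ Q, (F x < F y ↔ toLex x < toLex y) := by
    intro x hx y hy
    rw [hF x hx, hF y hy]
    exact hf1 _ _
  have F2 : ∀ x ∈ Q, ∀ y ∈ Q, F x = F y → x = y := by
    intro x hx y hy hxy
    rcases lt_trichotomy (toLex x) (toLex y) with h' | h' | h'
    · exact absurd hxy (ne_of_lt ((F1 x hx y hy).mpr h'))
    · exact toLex.injective h'
    · exact absurd hxy (ne_of_gt ((F1 y hy x hx).mpr h'))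
  have F3 : ∀ x ∈ Q, c (F x) (F x) = Sum.inl s := by
    intro x hx
    rw [hF x hx]
    exact hf2 _
  have F4 : ∀ x ∈ Q, ∀ y ∈ Q, x ≠ y → c (F x) (F y) = Sum.inr (D x y) := by
    intro x hx y hy hxy
    rw [hF x hx, hF y hy]
    exact hf3 ⟨x, hx⟩ ⟨y, hy⟩ (fun he => hxy (congrArg Subtype.val he))
  -- membership
  have mv : ∀ (l : Fin 6) (a : ℕ), a < 3 → (v l, a) ∈ Q := fun l a ha =>
    ⟨(Sum.inl l, ⟨a, ha⟩), rfl⟩
  have mv' : ∀ (l : Fin 6) (a : ℕ), a < 3 → (v' l, a) ∈ Q := fun l a ha =>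
    ⟨(Sum.inr l, ⟨a, ha⟩), rfl⟩
  have hlt : ∀ (x y : V) (a b : ℕ), x < y → (toLex (x, a) : Lex (V × ℕ)) < toLex (y, b) := by
    intro x y a b hxy
    exact Prod.Lex.toLex_lt_toLex.mpr (Or.inl hxy)
  -- copies
  have hcopy : ∃ s', h (fun l => F (v l, 0)) (fun l => F (v' l, 0)) = Sum.inl s' := by
    refine ⟨s', ?_⟩
    rw [← hvv]
    refine (hcore.can.tinv _ _ _ _ ?_).symm
    intro i j
    have me : ∀ i : Fin 6 ⊕ Fin 6, (Sum.elim v v' i, 0) ∈ Q := fun i => ⟨(i, 0), rfl⟩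
    have hel : ∀ i : Fin 6 ⊕ Fin 6, Sum.elim (fun l => F (v l, 0)) (fun l => F (v' l, 0)) i =
        F (Sum.elim v v' i, 0) := by
      rintro (i | i) <;> rfl
    rw [hel i, hel j]
    constructor
    · rw [F1 _ (me i) _ (me j), Prod.Lex.toLex_lt_toLex]
      constructor
      · intro h; exact Or.inl h
      · rintro (h | ⟨_, h⟩)
        · exact h
        · exact absurd h (lt_irrefl _)
    · by_cases hij : Sum.elim v v' i = Sum.elim v v' j
      · rw [hij, F3 _ (me j)]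
        exact hQt _ (me j)
      · rw [F4 _ (me i) _ (me j) (fun he => hij (congrArg Prod.fst he))]
        have h1 : D (Sum.elim v v' i, 0) (Sum.elim v v' j, 0) =
          cD P c (Sum.elim v v' i) (Sum.elim v v' j) := if_pos ⟨rfl, rfl⟩
        rw [h1]
        exact cD_of_ne hc hij
  -- the general comparison
  have gen : ∀ (κ : Fin 6 → ℕ) (J : Set (Fin 6)) (v : Fin 6 → V) (b : ℕ), JS P c s h κ J →
      (∀ l l', κ l = κ l' → (l ∈ J ↔ l' ∈ J)) → ZS P c s κ v v → (∀ l, (v l, 0) ∈ Q) →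
      (∀ l, (v l, b) ∈ Q) →
      (∃ s', h (fun l => F (v l, 0)) (fun l => if l ∈ J then F (v l, 0) else F (v l, b)) =
        Sum.inl s') ∧ FBl P c s (fun l => if l ∈ J then F (v l, 0) else F (v l, b)) := by
    intro κ J v b hJ hJκ hv m0 mb
    have hw : ∀ l, ∃ a, (v l, a) ∈ Q ∧ (if l ∈ J then F (v l, 0) else F (v l, b)) = F (v l, a) := by
      intro l
      by_cases hl : l ∈ J
      · exact ⟨0, m0 l, if_pos hl⟩
      · exact ⟨b, mb l, if_neg hl⟩
    have hweq : ∀ l l', κ l = κ l' → (if l ∈ J then F (v l, 0) else F (v l, b)) =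
        (if l' ∈ J then F (v l', 0) else F (v l', b)) := by
      intro l l' hll
      rw [(hv.eq l l' hll).1]
      by_cases hl : l ∈ J
      · rw [if_pos hl, if_pos ((hJκ l l' hll).mp hl)]
      · rw [if_neg hl, if_neg (fun h => hl ((hJκ l l' hll).mpr h))]
    have hfr : ∀ l l' a a', κ l < κ l' → D (v l, a) (v l', a') = P.fr s s := by
      intro l l' a a' hll
      show (if a = 0 ∧ a' = 0 then cD P c (v l) (v l') else P.fr s s) = P.fr s s
      rw [cD_of_inr (hv.free l l' hll).1, ite_self]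
    have hfr' : ∀ l l' a a', κ l < κ l' → (v l, a) ∈ Q → (v l', a') ∈ Q →
        c (F (v l, a)) (F (v l', a')) = Sum.inr (P.fr s s) := by
      intro l l' a a' hll h1 h2
      rw [F4 _ h1 _ h2 (fun he => (hv.lt l l' hll).1.ne (congrArg Prod.fst he)),
        hfr l l' a a' hll]
    refine ⟨(hJ _ _ ⟨?_, ?_, ?_, ?_⟩).mpr ?_, ?_, ?_⟩
    · intro l
      obtain ⟨a, ha, ea⟩ := hw l
      show c (F (v l, 0)) (F (v l, 0)) = _ ∧ c (if l ∈ J then F (v l, 0) else F (v l, b))
        (if l ∈ J then F (v l, 0) else F (v l, b)) = _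
      rw [ea]
      exact ⟨F3 _ (m0 l), F3 _ ha⟩
    · intro l l' hll
      refine ⟨?_, hweq l l' hll⟩
      show F (v l, 0) = F (v l', 0)
      rw [(hv.eq l l' hll).1]
    · intro l l' hll
      obtain ⟨a, ha, ea⟩ := hw l
      obtain ⟨a', ha', ea'⟩ := hw l'
      have hvl := (hv.lt l l' hll).1
      show F (v l, 0) < F (v l', 0) ∧ F (v l, 0) < (if l' ∈ J then F (v l', 0) else F (v l', b)) ∧
        (if l ∈ J then F (v l, 0) else F (v l, b)) < F (v l', 0) ∧
        (if l ∈ J then F (v l, 0) else F (v l, b)) < (if l' ∈ J then F (v l', 0) else F (v l', b))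
      rw [ea, ea']
      exact ⟨(F1 _ (m0 l) _ (m0 l')).mpr (hlt _ _ _ _ hvl),
        (F1 _ (m0 l) _ ha').mpr (hlt _ _ _ _ hvl),
        (F1 _ ha _ (m0 l')).mpr (hlt _ _ _ _ hvl), (F1 _ ha _ ha').mpr (hlt _ _ _ _ hvl)⟩
    · intro l l' hll
      obtain ⟨a, ha, ea⟩ := hw l
      obtain ⟨a', ha', ea'⟩ := hw l'
      show c (F (v l, 0)) (F (v l', 0)) = Sum.inr (P.fr s s) ∧
        c (F (v l, 0)) (if l' ∈ J then F (v l', 0) else F (v l', b)) = Sum.inr (P.fr s s) ∧
        c (if l ∈ J then F (v l, 0) else F (v l, b)) (F (v l', 0)) = Sum.inr (P.fr s s) ∧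
        c (if l ∈ J then F (v l, 0) else F (v l, b))
          (if l' ∈ J then F (v l', 0) else F (v l', b)) = Sum.inr (P.fr s s)
      rw [ea, ea']
      exact ⟨hfr' _ _ _ _ hll (m0 l) (m0 l'), hfr' _ _ _ _ hll (m0 l) ha',
        hfr' _ _ _ _ hll ha (m0 l'), hfr' _ _ _ _ hll ha ha'⟩
    · intro l hl
      show F (v l, 0) = (if l ∈ J then F (v l, 0) else F (v l, b))
      rw [if_pos hl]
    · intro l
      obtain ⟨a, ha, ea⟩ := hw l
      show c (if l ∈ J then F (v l, 0) else F (v l, b))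
        (if l ∈ J then F (v l, 0) else F (v l, b)) = _
      rw [ea]
      exact F3 _ ha
    · intro l l' hll
      have hll' : (if l ∈ J then F (v l, 0) else F (v l, b)) ≠
        (if l' ∈ J then F (v l', 0) else F (v l', b)) := hll
      show c (if l ∈ J then F (v l, 0) else F (v l, b))
        (if l' ∈ J then F (v l', 0) else F (v l', b)) = _
      obtain ⟨a, ha, ea⟩ := hw l
      obtain ⟨a', ha', ea'⟩ := hw l'
      rcases lt_trichotomy (κ l) (κ l') with hk | hk | hk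
      · rw [ea, ea']
        exact hfr' _ _ _ _ hk ha ha'
      · exact absurd (hweq l l' hk) hll'
      · rw [ea, ea']
        have h1 := hfr' _ _ _ _ hk ha' ha
        rw [hc.swap _ _ _ h1, P.rv_fr]
  obtain ⟨g1, k1⟩ := gen κ J v 1 hJ hJκ hv (fun l => mv l 0 (by omega)) (fun l => mv l 1 (by omega))
  obtain ⟨g2, k2⟩ := gen κ' J' v' 2 hJ' hJκ' hv' (fun l => mv' l 0 (by omega))
    (fun l => mv' l 2 (by omega))
  -- h w w' = inl
  have gs : ∃ s', h (fun l => F (v' l, 0))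
      (fun l => if l ∈ J then F (v l, 0) else F (v l, 1)) = Sum.inl s' :=
    inl_trans hc hcore.can hcopy g1
  obtain ⟨s'', g3⟩ := inl_trans hc hcore.can gs g2
  refine hcore.ncol s _ _ k1 k2 ?_ s'' g3
  intro l l'
  show (if l ∈ J then F (v l, 0) else F (v l, 1)) ≠
    (if l' ∈ J' then F (v' l', 0) else F (v' l', 2))
  intro hEq
  by_cases hl : l ∈ J
  · by_cases hl' : l' ∈ J'
    · rw [if_pos hl, if_pos hl'] at hEq
      exact hne l hl l' hl' (Prod.ext_iff.mp
        (F2 _ (mv l 0 (by omega)) _ (mv' l' 0 (by omega)) hEq)).1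
    · rw [if_pos hl, if_neg hl'] at hEq
      exact absurd (Prod.ext_iff.mp
        (F2 _ (mv l 0 (by omega)) _ (mv' l' 2 (by omega)) hEq)).2 (by simp)
  · by_cases hl' : l' ∈ J'
    · rw [if_neg hl, if_pos hl'] at hEq
      exact absurd (Prod.ext_iff.mp
        (F2 _ (mv l 1 (by omega)) _ (mv' l' 0 (by omega)) hEq)).2 (by simp)
    · rw [if_neg hl, if_neg hl'] at hEq
      exact absurd (Prod.ext_iff.mp
        (F2 _ (mv l 1 (by omega)) _ (mv' l' 2 (by omega)) hEq)).2 (by simp)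

end Pool.Agent.H59.SO.SEP
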